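import Mathlib
import Pool.Agent.Q88.MT.Stm2

set_option autoImplicit false

open Set Filter Topology
open Pool.Agent.Q88.MT

noncomputable section

namespace Pool.Agent.Q214.MT

theorem sy_conj {n : ℕ} (k : Fin n → ℤ) (τ : Equiv.Perm (Fin n)) (h : ∀ j, k (τ j) = - k j)
    (t : Fin n → ℝ) : (starRingEnd ℂ) (sy k t) = sy k t := by
  unfold sy
  rw [map_mul, map_sum]
  congr 1
  · rw [map_div₀, map_one, Complex.conj_natCast]
  · rw [← Equiv.sum_comp (Equiv.mulLeft τ)
      (fun π : Equiv.Perm (Fin n) => Complex.exp (((∑ j, t j * (k (π j) : ℝ) : ℝ) : ℂ) * Complex.I))]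
    refine Finset.sum_congr rfl fun π _ => ?_
    rw [← Complex.exp_conj, map_mul, Complex.conj_I, Complex.conj_ofReal]
    congr 1
    have e : (∑ j, t j * (k ((Equiv.mulLeft τ π) j) : ℝ)) = - ∑ j, t j * (k (π j) : ℝ) := by
      rw [← Finset.sum_neg_distrib]
      refine Finset.sum_congr rfl fun j _ => ?_
      have e1 : (Equiv.mulLeft τ π) j = τ (π j) := rfl
      rw [e1, h]
      push_cast
      ring
    rw [e]
    push_cast
    ring

theorem sy_im {n : ℕ} (k : Fin n → ℤ) (τ : Equiv.Perm (Fin n)) (h : ∀ j, k (τ j) = - k j)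
    (t : Fin n → ℝ) : (sy k t).im = 0 := Complex.conj_eq_iff_im.mp (sy_conj k τ h t)

theorem sy_norm {n : ℕ} (k : Fin n → ℤ) (t : Fin n → ℝ) : ‖sy k t‖ ≤ 1 := by
  unfold sy
  rw [norm_mul]
  have h1 : ‖∑ π : Equiv.Perm (Fin n),
      Complex.exp (((∑ j, t j * (k (π j) : ℝ) : ℝ) : ℂ) * Complex.I)‖ ≤ (n.factorial : ℝ) := by
    refine (norm_sum_le _ _).trans ?_
    simp only [Complex.norm_exp_ofReal_mul_I, Finset.sum_const, Finset.card_univ,
      Fintype.card_perm, Fintype.card_fin, nsmul_eq_mul, mul_one, le_refl]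
  have h2 : ‖(1 / (n.factorial : ℂ))‖ = 1 / (n.factorial : ℝ) := by
    rw [norm_div, norm_one, Complex.norm_natCast]
  rw [h2]
  have h3 : (0 : ℝ) < n.factorial := by exact_mod_cast n.factorial_pos
  calc 1 / (n.factorial : ℝ) * _ ≤ 1 / (n.factorial : ℝ) * (n.factorial : ℝ) :=
        mul_le_mul_of_nonneg_left h1 (by positivity)
    _ = 1 := by field_simp

theorem sy_zero {n : ℕ} (k : Fin n → ℤ) : sy k 0 = 1 := by
  unfold sy
  have h3 : (n.factorial : ℂ) ≠ 0 := by exact_mod_cast n.factorial_ne_zero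
  simp only [Pi.zero_apply, zero_mul, Finset.sum_const_zero, Complex.ofReal_zero, Complex.exp_zero,
    Finset.sum_const, Finset.card_univ, Fintype.card_perm, Fintype.card_fin, nsmul_eq_mul, mul_one]
  field_simp

theorem sy_cont {n : ℕ} (k : Fin n → ℤ) : Continuous (sy k) := by
  unfold sy
  fun_prop

theorem sy_bdd {n : ℕ} (k : Fin n → ℤ) : BddBelow (range fun t : Fin n → ℝ => (sy k t).re) := by
  refine ⟨-1, ?_⟩
  rintro _ ⟨t, rfl⟩
  have h1 := (abs_le.mp ((Complex.abs_re_le_norm (sy k t)).trans (sy_norm k t))).1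
  exact h1

theorem sy_per {n : ℕ} (k : Fin n → ℤ) (t : Fin n → ℝ) (m : Fin n → ℤ) :
    sy k (fun j => t j + m j * (2 * Real.pi)) = sy k t := by
  unfold sy
  congr 1
  refine Finset.sum_congr rfl fun π _ => ?_
  have e : (((∑ j, (t j + m j * (2 * Real.pi)) * (k (π j) : ℝ) : ℝ) : ℂ) * Complex.I) =
      ((∑ j, t j * (k (π j) : ℝ) : ℝ) : ℂ) * Complex.I +
        ((∑ j, m j * k (π j) : ℤ) : ℂ) * (2 * Real.pi * Complex.I) := by
    have e1 : (∑ j, (t j + m j * (2 * Real.pi)) * (k (π j) : ℝ)) =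
        (∑ j, t j * (k (π j) : ℝ)) + ((∑ j, m j * k (π j) : ℤ) : ℝ) * (2 * Real.pi) := by
      push_cast
      rw [Finset.sum_mul, ← Finset.sum_add_distrib]
      exact Finset.sum_congr rfl fun j _ => by ring
    rw [e1]
    push_cast
    ring
  rw [e, Complex.exp_add, Complex.exp_int_mul_two_pi_mul_I, mul_one]

/-- JOB REA -/
theorem rea : S_rea := by
  intro n k τ hk
  have hbd := sy_bdd k
  refine ⟨fun t => ⟨sy_im k τ hk t, csInf_le hbd ⟨t, rfl⟩⟩, ?_, ?_⟩
  · refine csInf_le hbd ⟨0, ?_⟩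
    simp only [sy_zero, Complex.one_re]
  · intro x hx1 hx2
    have hg : Continuous fun t : Fin n → ℝ => (sy k t).re := Complex.continuous_re.comp (sy_cont k)
    obtain ⟨t0, ht0, hmin⟩ := (isCompact_Icc (a := (0 : Fin n → ℝ))
      (b := fun _ => 2 * Real.pi)).exists_isMinOn
      ⟨0, ⟨le_refl _, fun j => by simp [Real.pi_pos.le]⟩⟩ hg.continuousOn
    have hall : ∀ t : Fin n → ℝ, (sy k t0).re ≤ (sy k t).re := by
      intro t
      have h2pi : 0 < 2 * Real.pi := by positivity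
      set m : Fin n → ℤ := fun j => ⌊t j / (2 * Real.pi)⌋ with hm
      set s : Fin n → ℝ := fun j => Int.fract (t j / (2 * Real.pi)) * (2 * Real.pi) with hs
      have e : t = fun j => s j + m j * (2 * Real.pi) := by
        funext j
        rw [hs, hm]
        simp only
        rw [← add_mul, Int.fract_add_floor]
        field_simp
      have hs1 : s ∈ Icc (0 : Fin n → ℝ) (fun _ => 2 * Real.pi) := by
        refine ⟨fun j => ?_, fun j => ?_⟩
        · exact mul_nonneg (Int.fract_nonneg _) h2pi.le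
        · have := (Int.fract_lt_one (t j / (2 * Real.pi))).le
          change Int.fract (t j / (2 * Real.pi)) * (2 * Real.pi) ≤ 2 * Real.pi
          nlinarith
      have h1 : (sy k t0).re ≤ (sy k s).re := hmin hs1
      rw [e, sy_per k s m]
      exact h1
    have hmu : mu k = (sy k t0).re := by
      refine IsLeast.csInf_eq ⟨⟨t0, rfl⟩, ?_⟩
      rintro _ ⟨t, rfl⟩
      exact hall t
    obtain ⟨t, ht⟩ := mem_range_of_exists_le_of_exists_ge (c := x) hg
      ⟨t0, by rw [← hmu]; exact hx1⟩ ⟨0, by simp only [sy_zero, Complex.one_re]; exact hx2⟩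
    refine ⟨t, Complex.ext ?_ ?_⟩
    · simpa using ht
    · rw [sy_im k τ hk t, Complex.ofReal_im]

end Pool.Agent.Q214.MT
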