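import Mathlib
import Pool.Agent.Q88.MT.Stm2
import Pool.Agent.Q214.MT.Rea

set_option autoImplicit false

open Set Filter Topology
open Pool.Agent.Q88.MT

noncomputable section

namespace Pool.Agent.Q214.MT

/-- sum over a cyclic group -/
theorem geo (N : ℕ) (hN : 0 < N) (m : ℤ) (hm : |m| < N) :
    ∑ a : Fin N, Complex.exp ((((m : ℝ) * (2 * Real.pi * ((a : ℕ) : ℝ) / N) : ℝ) : ℂ) * Complex.I) =
      if m = 0 then (N : ℂ) else 0 := by
  have hN0 : (N : ℂ) ≠ 0 := by exact_mod_cast hN.ne'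
  split_ifs with h
  · subst h; simp
  · obtain ⟨r, hr⟩ : ∃ r : ℂ, r = Complex.exp ((m : ℂ) / N * (2 * Real.pi * Complex.I)) := ⟨_, rfl⟩
    have e : ∀ a : Fin N, Complex.exp ((((m : ℝ) * (2 * Real.pi * ((a : ℕ) : ℝ) / N) : ℝ) : ℂ) *
        Complex.I) = r ^ (a : ℕ) := by
      intro a
      rw [hr, ← Complex.exp_nat_mul]
      congr 1
      push_cast
      ring
    rw [Finset.sum_congr rfl fun a _ => e a, Fin.sum_univ_eq_sum_range (fun i => r ^ i) N]
    have hr1 : r ≠ 1 := by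
      rw [hr]
      intro h1
      rw [Complex.exp_eq_one_iff] at h1
      obtain ⟨j, hj⟩ := h1
      have h2 := mul_right_cancel₀ Complex.two_pi_I_ne_zero hj
      rw [div_eq_iff hN0] at h2
      have h3 : m = j * N := by exact_mod_cast h2
      have h4 : j ≠ 0 := by
        rintro rfl
        exact h (by rw [h3, zero_mul])
      have h5 : (1 : ℤ) ≤ |j| := Int.one_le_abs h4
      rw [h3, abs_mul, Nat.abs_cast] at hm
      have h6 : (0 : ℤ) < N := by exact_mod_cast hN
      nlinarith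
    have hrN : r ^ N = 1 := by
      rw [hr, ← Complex.exp_nat_mul]
      have e2 : (N : ℂ) * ((m : ℂ) / N * (2 * Real.pi * Complex.I)) =
          (m : ℂ) * (2 * Real.pi * Complex.I) := by
        field_simp
      rw [e2, Complex.exp_int_mul_two_pi_mul_I]
    rw [geom_sum_eq hr1, hrN, sub_self, zero_div]

/-- the points of the discrete torus -/
def pt {n : ℕ} (N : ℕ) (ξ : Fin n → Fin N) (j : Fin n) : ℝ := 2 * Real.pi * ((ξ j : ℕ) : ℝ) / N

theorem E_sum {n : ℕ} (N : ℕ) (hN : 0 < N) (m : Fin n → ℤ) (hm : ∀ j, |m j| < N) :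
    ∑ ξ : Fin n → Fin N, Complex.exp (((∑ j, (m j : ℝ) * pt N ξ j : ℝ) : ℂ) * Complex.I) =
      if m = 0 then (N : ℂ) ^ n else 0 := by
  have e : ∀ ξ : Fin n → Fin N,
      Complex.exp (((∑ j, (m j : ℝ) * pt N ξ j : ℝ) : ℂ) * Complex.I) =
        ∏ j, Complex.exp ((((m j : ℝ) * (2 * Real.pi * (((ξ j : Fin N) : ℕ) : ℝ) / N) : ℝ) : ℂ) *
          Complex.I) := by
    intro ξ
    rw [← Complex.exp_sum]
    congr 1
    rw [Complex.ofReal_sum, Finset.sum_mul]
    rfl
  rw [Finset.sum_congr rfl fun ξ _ => e ξ,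
    ← Fintype.prod_sum (fun (j : Fin n) (a : Fin N) =>
      Complex.exp ((((m j : ℝ) * (2 * Real.pi * ((a : ℕ) : ℝ) / N) : ℝ) : ℂ) * Complex.I)),
    Finset.prod_congr rfl fun j _ => geo N hN (m j) (hm j)]
  split_ifs with h
  · subst h; simp
  · obtain ⟨j, hj⟩ := Function.ne_iff.mp h
    exact Finset.prod_eq_zero (Finset.mem_univ j) (if_neg hj)

/-- the discrete Fourier transform -/
def uh {n : ℕ} (B : Finset (X n)) (u : X n → ℂ) (t : Fin n → ℝ) : ℂ :=
  ∑ x ∈ B, u x * Complex.exp (-(((∑ j, (x j : ℝ) * t j : ℝ) : ℂ) * Complex.I))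

theorem core {n : ℕ} (R κ N : ℕ) (hN : R + κ < N) (u : X n → ℂ) (B : Finset (X n))
    (hB : ∀ x, x ∈ B → ∀ j, x j < R) (hu : ∀ x, x ∉ B → u x = 0) (m : Fin n → ℤ)
    (hm : ∀ j, |m j| ≤ κ) :
    ∑ ξ : Fin n → Fin N, Complex.exp (-(((∑ j, (m j : ℝ) * pt N ξ j : ℝ) : ℂ) * Complex.I)) *
      ((starRingEnd ℂ) (uh B u (pt N ξ)) * uh B u (pt N ξ)) =
      (N : ℂ) ^ n * ∑ y ∈ B, (starRingEnd ℂ) (u y) * W m u y := by
  have h1 : ∀ ξ : Fin n → Fin N,
      Complex.exp (-(((∑ j, (m j : ℝ) * pt N ξ j : ℝ) : ℂ) * Complex.I)) *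
        ((starRingEnd ℂ) (uh B u (pt N ξ)) * uh B u (pt N ξ)) =
      ∑ y ∈ B, ∑ x ∈ B, ((starRingEnd ℂ) (u y) * u x) *
        Complex.exp (((∑ j, (((y j : ℤ) - x j - m j : ℤ) : ℝ) * pt N ξ j : ℝ) : ℂ) *
          Complex.I) := by
    intro ξ
    unfold uh
    rw [map_sum, Finset.sum_mul_sum, Finset.mul_sum]
    refine Finset.sum_congr rfl fun y _ => ?_
    rw [Finset.mul_sum]
    refine Finset.sum_congr rfl fun x _ => ?_
    rw [map_mul, ← Complex.exp_conj, map_neg, map_mul, Complex.conj_I, Complex.conj_ofReal]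
    have e : ((∑ j, (((y j : ℤ) - x j - m j : ℤ) : ℝ) * pt N ξ j : ℝ) : ℂ) * Complex.I =
        (-(((∑ j, (m j : ℝ) * pt N ξ j : ℝ) : ℂ) * Complex.I)) +
          (-(((∑ j, (y j : ℝ) * pt N ξ j : ℝ) : ℂ) * -Complex.I)) +
          (-(((∑ j, (x j : ℝ) * pt N ξ j : ℝ) : ℂ) * Complex.I)) := by
      have e1 : (∑ j, (((y j : ℤ) - x j - m j : ℤ) : ℝ) * pt N ξ j) =
          (∑ j, (y j : ℝ) * pt N ξ j) - (∑ j, (x j : ℝ) * pt N ξ j) -
            ∑ j, (m j : ℝ) * pt N ξ j := by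
        rw [← Finset.sum_sub_distrib, ← Finset.sum_sub_distrib]
        refine Finset.sum_congr rfl fun j _ => ?_
        push_cast
        ring
      rw [e1]
      push_cast
      ring
    rw [e, Complex.exp_add, Complex.exp_add]
    ring
  rw [Finset.sum_congr rfl fun ξ _ => h1 ξ, Finset.sum_comm, Finset.mul_sum]
  refine Finset.sum_congr rfl fun y hy => ?_
  rw [Finset.sum_comm]
  have h2 : ∀ x ∈ B, ∑ ξ : Fin n → Fin N, ((starRingEnd ℂ) (u y) * u x) *
        Complex.exp (((∑ j, (((y j : ℤ) - x j - m j : ℤ) : ℝ) * pt N ξ j : ℝ) : ℂ) *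
          Complex.I) = ((starRingEnd ℂ) (u y) * u x) *
        (if (fun j => (y j : ℤ) - x j - m j) = 0 then (N : ℂ) ^ n else 0) := by
    intro x hx
    rw [← Finset.mul_sum, E_sum N (by omega) (fun j => (y j : ℤ) - x j - m j) (fun j => by
      have a1 := hB y hy j
      have a2 := hB x hx j
      have a3 := abs_le.mp (hm j)
      exact abs_lt.mpr ⟨by omega, by omega⟩)]
  rw [Finset.sum_congr rfl h2]
  unfold W
  by_cases hc : ∀ j, 0 ≤ (y j : ℤ) - m j
  · rw [if_pos hc]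
    have key : ∀ x : X n, ((fun j => (y j : ℤ) - x j - m j) = 0) ↔
        x = fun j => ((y j : ℤ) - m j).toNat := by
      intro x
      constructor
      · intro h
        funext j
        have := congrFun h j
        simp only [Pi.zero_apply] at this
        have := hc j
        omega
      · rintro rfl
        funext j
        have := hc j
        simp only [Pi.zero_apply]
        omega
    by_cases hx0 : (fun j => ((y j : ℤ) - m j).toNat) ∈ B
    · rw [Finset.sum_eq_single (fun j => ((y j : ℤ) - m j).toNat)]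
      · rw [if_pos ((key _).mpr rfl)]
        ring
      · intro x _ hne
        rw [if_neg (fun h => hne ((key x).mp h)), mul_zero]
      · intro h
        exact absurd hx0 h
    · rw [hu _ hx0, mul_zero, mul_zero]
      refine Finset.sum_eq_zero fun x hx => ?_
      rw [if_neg, mul_zero]
      intro h
      rw [(key x).mp h] at hx
      exact hx0 hx
  · rw [if_neg hc, mul_zero, mul_zero]
    refine Finset.sum_eq_zero fun x hx => ?_
    rw [if_neg, mul_zero]
    intro h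
    apply hc
    intro j
    have := congrFun h j
    simp only [Pi.zero_apply] at this
    omega

theorem W_zero {n : ℕ} (u : X n → ℂ) (y : X n) : W (fun _ => 0) u y = u y := by
  simp [W]

/-- finitely supported vectors -/
theorem fin_case {n : ℕ} (k : Fin n → ℤ) (τ : Equiv.Perm (Fin n)) (hk : ∀ j, k (τ j) = - k j)
    (R : ℕ) (u : X n → ℂ) (B : Finset (X n)) (hB : ∀ x, x ∈ B → ∀ j, x j < R)
    (hu : ∀ x, x ∉ B → u x = 0) :
    (∑ y ∈ B, (starRingEnd ℂ) (u y) * T k u y).im = 0 ∧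
      mu k * ∑ y ∈ B, ‖u y‖ ^ 2 ≤ (∑ y ∈ B, (starRingEnd ℂ) (u y) * T k u y).re := by
  obtain ⟨hr1, -, -⟩ := rea n k τ hk
  obtain ⟨κ, hκ⟩ : ∃ κ : ℕ, ∀ j, |k j| ≤ κ := by
    refine ⟨∑ j, (k j).natAbs, fun j => ?_⟩
    have h1 : (k j).natAbs ≤ ∑ j, (k j).natAbs :=
      Finset.single_le_sum (f := fun j => (k j).natAbs) (fun _ _ => Nat.zero_le _)
        (Finset.mem_univ j)
    rw [Int.abs_eq_natAbs]
    exact_mod_cast h1
  obtain ⟨N, hN⟩ : ∃ N : ℕ, N = R + κ + 1 := ⟨_, rfl⟩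
  have hNn : (0 : ℝ) < (N : ℝ) ^ n := by
    have : (0 : ℝ) < N := by rw [hN]; positivity
    positivity
  -- the form
  have f1 : (N : ℂ) ^ n * ∑ y ∈ B, (starRingEnd ℂ) (u y) * T k u y =
      ∑ ξ : Fin n → Fin N, sy k (fun j => - pt N ξ j) * ((‖uh B u (pt N ξ)‖ ^ 2 : ℝ) : ℂ) := by
    have a1 : ∑ y ∈ B, (starRingEnd ℂ) (u y) * T k u y = 1 / (n.factorial : ℂ) *
        ∑ π : Equiv.Perm (Fin n), ∑ y ∈ B, (starRingEnd ℂ) (u y) *
          W (fun j => k (π j)) u y := by
      rw [Finset.sum_comm, Finset.mul_sum]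
      refine Finset.sum_congr rfl fun y _ => ?_
      unfold T
      rw [← Finset.mul_sum]
      ring
    rw [a1]
    have a2 : ∀ π : Equiv.Perm (Fin n), (N : ℂ) ^ n * ∑ y ∈ B, (starRingEnd ℂ) (u y) *
          W (fun j => k (π j)) u y =
        ∑ ξ : Fin n → Fin N,
          Complex.exp (-(((∑ j, (k (π j) : ℝ) * pt N ξ j : ℝ) : ℂ) * Complex.I)) *
            ((starRingEnd ℂ) (uh B u (pt N ξ)) * uh B u (pt N ξ)) := fun π =>
      (core R κ N (by omega) u B hB hu (fun j => k (π j)) (fun j => hκ _)).symm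
    calc (N : ℂ) ^ n * (1 / (n.factorial : ℂ) * ∑ π : Equiv.Perm (Fin n), ∑ y ∈ B,
          (starRingEnd ℂ) (u y) * W (fun j => k (π j)) u y) =
        1 / (n.factorial : ℂ) * ∑ π : Equiv.Perm (Fin n), ((N : ℂ) ^ n * ∑ y ∈ B,
          (starRingEnd ℂ) (u y) * W (fun j => k (π j)) u y) := by
          rw [← Finset.mul_sum]; ring
      _ = 1 / (n.factorial : ℂ) * ∑ π : Equiv.Perm (Fin n), ∑ ξ : Fin n → Fin N,
          Complex.exp (-(((∑ j, (k (π j) : ℝ) * pt N ξ j : ℝ) : ℂ) * Complex.I)) *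
            ((starRingEnd ℂ) (uh B u (pt N ξ)) * uh B u (pt N ξ)) := by
          rw [Finset.sum_congr rfl fun π _ => a2 π]
      _ = _ := by
          rw [Finset.sum_comm, Finset.mul_sum]
          refine Finset.sum_congr rfl fun ξ _ => ?_
          rw [← Finset.sum_mul, ← mul_assoc]
          congr 1
          · unfold sy
            congr 1
            refine Finset.sum_congr rfl fun π _ => ?_
            congr 1
            rw [← neg_mul, ← Complex.ofReal_neg, ← Finset.sum_neg_distrib]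
            congr 2
            refine Finset.sum_congr rfl fun j _ => ?_
            ring
          · rw [← Complex.normSq_eq_conj_mul_self, Complex.normSq_eq_norm_sq]
  have f2 : (N : ℂ) ^ n * ∑ y ∈ B, ((‖u y‖ ^ 2 : ℝ) : ℂ) =
      ∑ ξ : Fin n → Fin N, ((‖uh B u (pt N ξ)‖ ^ 2 : ℝ) : ℂ) := by
    have a1 := core R κ N (by omega) u B hB hu (fun _ => 0) (fun j => by simp)
    have a2 : ∀ y, (starRingEnd ℂ) (u y) * W (fun _ => 0) u y = ((‖u y‖ ^ 2 : ℝ) : ℂ) := by
      intro y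
      rw [W_zero, ← Complex.normSq_eq_conj_mul_self, Complex.normSq_eq_norm_sq]
    rw [Finset.sum_congr rfl fun y _ => a2 y] at a1
    rw [← a1]
    refine Finset.sum_congr rfl fun ξ _ => ?_
    rw [← Complex.normSq_eq_conj_mul_self, Complex.normSq_eq_norm_sq]
    simp
  have f2' : (N : ℝ) ^ n * ∑ y ∈ B, ‖u y‖ ^ 2 =
      ∑ ξ : Fin n → Fin N, ‖uh B u (pt N ξ)‖ ^ 2 := by
    exact_mod_cast f2
  have e0 : ((N : ℂ) ^ n) = (((N : ℝ) ^ n : ℝ) : ℂ) := by push_cast; rfl
  rw [e0] at f1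
  constructor
  · have h1 := congrArg Complex.im f1
    rw [Complex.im_ofReal_mul] at h1
    have h2 : (∑ ξ : Fin n → Fin N,
        (sy k (fun j => - pt N ξ j) * ((‖uh B u (pt N ξ)‖ ^ 2 : ℝ) : ℂ))).im = 0 := by
      rw [Complex.im_sum]
      refine Finset.sum_eq_zero fun ξ _ => ?_
      rw [Complex.im_mul_ofReal, (hr1 _).1, zero_mul]
    rw [h2] at h1
    exact (mul_eq_zero.mp h1).resolve_left hNn.ne'
  · have h1 := congrArg Complex.re f1
    rw [Complex.re_ofReal_mul] at h1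
    have h2 : mu k * ∑ ξ : Fin n → Fin N, ‖uh B u (pt N ξ)‖ ^ 2 ≤ (∑ ξ : Fin n → Fin N,
        (sy k (fun j => - pt N ξ j) * ((‖uh B u (pt N ξ)‖ ^ 2 : ℝ) : ℂ))).re := by
      rw [Finset.mul_sum, Complex.re_sum]
      refine Finset.sum_le_sum fun ξ _ => ?_
      rw [Complex.re_mul_ofReal]
      exact mul_le_mul_of_nonneg_right (hr1 _).2 (sq_nonneg _)
    rw [← h1, ← f2'] at h2
    have h3 : (N : ℝ) ^ n * (mu k * ∑ y ∈ B, ‖u y‖ ^ 2) ≤
        (N : ℝ) ^ n * (∑ y ∈ B, (starRingEnd ℂ) (u y) * T k u y).re := by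
      calc (N : ℝ) ^ n * (mu k * ∑ y ∈ B, ‖u y‖ ^ 2) =
            mu k * ((N : ℝ) ^ n * ∑ y ∈ B, ‖u y‖ ^ 2) := by ring
        _ ≤ _ := h2
    exact le_of_mul_le_mul_left h3 hNn

/-- truncation -/
def tru {n : ℕ} (R : ℕ) (u : X n → ℂ) (x : X n) : ℂ := if ∀ j, x j < R then u x else 0

/-- the norms, as complex numbers -/
def absv {n : ℕ} (u : X n → ℂ) (x : X n) : ℂ := ((‖u x‖ : ℝ) : ℂ)

theorem tru_le {n : ℕ} (R : ℕ) (u : X n → ℂ) (x : X n) : ‖tru R u x‖ ≤ ‖u x‖ := by
  unfold tru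
  split_ifs
  · exact le_refl _
  · rw [norm_zero]; exact norm_nonneg _

theorem W_tru_le {n : ℕ} (R : ℕ) (m : Fin n → ℤ) (u : X n → ℂ) (y : X n) :
    ‖W m (tru R u) y‖ ≤ ‖W m u y‖ := by
  unfold W
  split_ifs
  · exact tru_le _ _ _
  · exact le_refl _

theorem W_absv {n : ℕ} (m : Fin n → ℤ) (u : X n → ℂ) (y : X n) :
    W m (absv u) y = ((‖W m u y‖ : ℝ) : ℂ) := by
  unfold W absv
  split_ifs
  · rfl
  · rw [norm_zero, Complex.ofReal_zero]

theorem T_absv {n : ℕ} (k : Fin n → ℤ) (u : X n → ℂ) (y : X n) :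
    ‖T k (absv u) y‖ = 1 / (n.factorial : ℝ) *
      ∑ π : Equiv.Perm (Fin n), ‖W (fun j => k (π j)) u y‖ := by
  have e : T k (absv u) y = ((1 / (n.factorial : ℝ) *
      ∑ π : Equiv.Perm (Fin n), ‖W (fun j => k (π j)) u y‖ : ℝ) : ℂ) := by
    unfold T
    rw [Finset.sum_congr rfl fun π _ => W_absv (fun j => k (π j)) u y]
    push_cast
    rfl
  rw [e, Complex.norm_real, Real.norm_of_nonneg]
  positivity

theorem T_le {n : ℕ} (k : Fin n → ℤ) (u v : X n → ℂ) (y : X n)
    (h : ∀ m : Fin n → ℤ, ‖W m v y‖ ≤ ‖W m u y‖) : ‖T k v y‖ ≤ ‖T k (absv u) y‖ := by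
  rw [T_absv]
  unfold T
  rw [norm_mul, norm_div, norm_one, Complex.norm_natCast]
  refine mul_le_mul_of_nonneg_left ?_ (by positivity)
  exact (norm_sum_le _ _).trans (Finset.sum_le_sum fun π _ => h _)

/-- JOB FOU -/
theorem fou (_h : S_bas) (h1 : S_bdd) (_h2 : S_rea) : S_fou := by
  intro n k τ hk u hu
  have hua : Sq (absv u) := by
    unfold Sq absv
    simp only [Complex.norm_real, norm_norm]
    exact hu
  have hTa : Sq (T k (absv u)) := (h1 n k (absv u) hua).1
  have hTu : Sq (T k u) := (h1 n k u hu).1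
  have hbd : Summable fun y => ‖u y‖ * ‖T k (absv u) y‖ := by
    refine Summable.of_nonneg_of_le (fun y => by positivity) (fun y => ?_) (hu.add hTa)
    nlinarith [sq_nonneg (‖u y‖ - ‖T k (absv u) y‖), sq_nonneg ‖u y‖,
      sq_nonneg ‖T k (absv u) y‖]
  have hsum : Summable (fun y => (starRingEnd ℂ) (u y) * T k u y) := by
    refine Summable.of_norm_bounded (g := fun y => ‖u y‖ ^ 2 + ‖T k u y‖ ^ 2) (hu.add hTu)
      (fun y => ?_)
    rw [norm_mul, RCLike.norm_conj]
    nlinarith [sq_nonneg (‖u y‖ - ‖T k u y‖), sq_nonneg ‖u y‖, sq_nonneg ‖T k u y‖]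
  -- the truncations
  obtain ⟨κ, hκ⟩ : ∃ κ : ℕ, ∀ j, |k j| ≤ κ := by
    refine ⟨∑ j, (k j).natAbs, fun j => ?_⟩
    have h1 : (k j).natAbs ≤ ∑ j, (k j).natAbs :=
      Finset.single_le_sum (f := fun j => (k j).natAbs) (fun _ _ => Nat.zero_le _)
        (Finset.mem_univ j)
    rw [Int.abs_eq_natAbs]
    exact_mod_cast h1
  have hev : ∀ y : X n, ∀ᶠ R : ℕ in atTop, tru R u y = u y ∧ T k (tru R u) y = T k u y := by
    intro y
    filter_upwards [eventually_ge_atTop (∑ j, y j + κ + 1)] with R hR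
    have hy : ∀ j, y j ≤ ∑ j, y j := fun j =>
      Finset.single_le_sum (f := fun j => y j) (fun _ _ => Nat.zero_le _) (Finset.mem_univ j)
    constructor
    · unfold tru
      rw [if_pos]
      intro j
      have := hy j
      omega
    · unfold T
      congr 1
      refine Finset.sum_congr rfl fun π _ => ?_
      unfold W
      split_ifs with hc
      · unfold tru
        rw [if_pos]
        intro j
        have a1 := hy j
        have a2 := abs_le.mp (hκ (π j))
        have a3 : 0 ≤ (y j : ℤ) - k (π j) := hc j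
        change ((y j : ℤ) - k (π j)).toNat < R
        omega
      · rfl
  have hlim1 : Tendsto (fun R : ℕ => ∑' y, (starRingEnd ℂ) (tru R u y) * T k (tru R u) y) atTop
      (𝓝 (∑' y, (starRingEnd ℂ) (u y) * T k u y)) := by
    refine tendsto_tsum_of_dominated_convergence hbd (fun y => ?_)
      (Filter.Eventually.of_forall fun R y => ?_)
    · refine tendsto_const_nhds.congr' ?_
      filter_upwards [hev y] with R hR
      rw [hR.1, hR.2]
    · rw [norm_mul, RCLike.norm_conj]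
      exact mul_le_mul (tru_le R u y) (T_le k u _ y fun m => W_tru_le R m u y) (norm_nonneg _)
        (norm_nonneg _)
  have hlim2 : Tendsto (fun R : ℕ => ∑' y, ‖tru R u y‖ ^ 2) atTop (𝓝 (∑' y, ‖u y‖ ^ 2)) := by
    refine tendsto_tsum_of_dominated_convergence hu (fun y => ?_)
      (Filter.Eventually.of_forall fun R y => ?_)
    · refine tendsto_const_nhds.congr' ?_
      filter_upwards [hev y] with R hR
      rw [hR.1]
    · rw [Real.norm_of_nonneg (sq_nonneg _)]
      exact pow_le_pow_left₀ (norm_nonneg _) (tru_le R u y) 2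
  have hfin : ∀ R : ℕ, (∑' y, (starRingEnd ℂ) (tru R u y) * T k (tru R u) y).im = 0 ∧
      mu k * ∑' y, ‖tru R u y‖ ^ 2 ≤
        (∑' y, (starRingEnd ℂ) (tru R u y) * T k (tru R u) y).re := by
    intro R
    have hB : ∀ x, x ∈ Fintype.piFinset (fun _ : Fin n => Finset.range R) ↔ ∀ j, x j < R := by
      intro x
      simp only [Fintype.mem_piFinset, Finset.mem_range]
    have hz : ∀ x, x ∉ Fintype.piFinset (fun _ : Fin n => Finset.range R) → tru R u x = 0 := by
      intro x hx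
      unfold tru
      rw [if_neg (fun h => hx ((hB x).mpr h))]
    have := fin_case k τ hk R (tru R u) (Fintype.piFinset (fun _ : Fin n => Finset.range R))
      (fun x hx => (hB x).mp hx) hz
    rw [tsum_eq_sum (s := Fintype.piFinset (fun _ : Fin n => Finset.range R)) (fun y hy => by
      rw [hz y hy, map_zero, zero_mul]),
      tsum_eq_sum (s := Fintype.piFinset (fun _ : Fin n => Finset.range R)) (fun y hy => by
      rw [hz y hy, norm_zero]; norm_num)]
    exact this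
  refine ⟨hsum, ?_, ?_⟩
  · have h3 := (Complex.continuous_im.tendsto _).comp hlim1
    refine tendsto_nhds_unique h3 ?_
    refine tendsto_const_nhds.congr fun R => ?_
    exact (hfin R).1.symm
  · have h3 := (Complex.continuous_re.tendsto _).comp hlim1
    have h4 := hlim2.const_mul (mu k)
    have h5 : nn u ^ 2 = ∑' y, ‖u y‖ ^ 2 := by
      unfold nn
      exact Real.sq_sqrt (tsum_nonneg fun y => sq_nonneg _)
    rw [h5]
    exact le_of_tendsto_of_tendsto' h4 h3 fun R => (hfin R).2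

end Pool.Agent.Q214.MT
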